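import Pool.Agent.X274.HopfInst

/-!
# MP_eed25b_nt: a tame `S₃`-extension whose classical associated order is a Hopf order while the
associated order in the canonical nonclassical Hopf-Galois structure is not
-/

set_option autoImplicit false
set_option linter.unusedSectionVars false

open scoped TensorProduct Polynomial

namespace Pool.Agent.Results.MP_eed25b_nt.HopfOrderFails

open Polynomial Pool.Agent.X274.Hopf

section

variable {F : Type} [Field F] [Finite F]

theorem three_ne (hF : Nat.card F % 3 = 2) : (3 : F) ≠ 0 := by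
  intro h3
  have := Fintype.ofFinite F
  have h1 : ((Nat.card F : ℕ) : F) = 0 := by
    rw [Nat.card_eq_fintype_card]
    exact FiniteField.cast_card_eq_zero F
  rw [← Nat.div_add_mod (Nat.card F) 3, hF] at h1
  push_cast at h1
  rw [h3, zero_mul, zero_add] at h1
  exact one_ne_zero (α := F) (by linear_combination h3 - h1)

/-- `X² + X + 1` -/
noncomputable def poly (F : Type) [Field F] : F[X] := X ^ 2 + X + 1

theorem aeval_poly {A : Type} [CommRing A] [Algebra F A] (x : A) :
    aeval x (poly F) = x ^ 2 + x + 1 := by simp [poly]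

theorem monic : (poly F).Monic := by
  unfold poly
  monicity!

theorem natDegree : (poly F).natDegree = 2 := by
  unfold poly
  compute_degree!

theorem irr (hF : Nat.card F % 3 = 2) : Irreducible (poly F) := by
  have := Fintype.ofFinite F
  have hd := natDegree (F := F)
  rw [monic.irreducible_iff_roots_eq_zero_of_degree_le_three (by omega) (by omega)]
  rw [Multiset.eq_zero_iff_forall_notMem]
  intro r hr
  have h1 : r ^ 2 + r + 1 = 0 := by
    have := (mem_roots'.1 hr).2
    simpa [poly, IsRoot] using this
  have h3 : r ^ 3 = 1 := by linear_combination (r - 1) * h1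
  have h0 : r ≠ 0 := by
    rintro rfl
    simp at h1
  have h4 : r = 1 := by
    have h5 := FiniteField.pow_card_sub_one_eq_one r h0
    have h6 : Fintype.card F - 1 = 3 * (Nat.card F / 3) + 1 := by
      rw [← Nat.card_eq_fintype_card]
      omega
    rw [h6, pow_succ, pow_mul, h3, one_pow, one_mul] at h5
    exact h5
  apply three_ne hF
  rw [h4] at h1
  linear_combination h1

/-- The constants. -/
noncomputable def cst (hF : Nat.card F % 3 = 2) :
    haveI : Fact (Irreducible (poly F)) := ⟨irr hF⟩
    Cst F (AdjoinRoot (poly F)) := by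
  haveI : Fact (Irreducible (poly F)) := ⟨irr hF⟩
  have hω : AdjoinRoot.root (poly F) ^ 2 + AdjoinRoot.root (poly F) + 1 = 0 := by
    rw [← aeval_poly (F := F)]
    exact AdjoinRoot.eval₂_root (poly F)
  have hω3 : AdjoinRoot.root (poly F) ^ 3 = 1 := by
    linear_combination (AdjoinRoot.root (poly F) - 1) * hω
  have hω' : aeval (AdjoinRoot.root (poly F) ^ 2) (poly F) = 0 := by
    rw [aeval_poly]
    linear_combination (AdjoinRoot.root (poly F) ^ 2 - AdjoinRoot.root (poly F) + 1) * hω
  let φ : AdjoinRoot (poly F) →ₐ[F] AdjoinRoot (poly F) :=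
    AdjoinRoot.liftAlgHom (poly F) (Algebra.ofId F _) (AdjoinRoot.root (poly F) ^ 2) hω'
  have hφ : φ (AdjoinRoot.root (poly F)) = AdjoinRoot.root (poly F) ^ 2 :=
    AdjoinRoot.liftAlgHom_root _ _ _ _
  have hφφ : φ.comp φ = AlgHom.id F _ := by
    apply AdjoinRoot.algHom_ext
    rw [AlgHom.comp_apply, hφ, map_pow, hφ, AlgHom.id_apply]
    linear_combination AdjoinRoot.root (poly F) * hω3
  exact
    { ω := AdjoinRoot.root (poly F)
      φ := AlgEquiv.ofAlgHom φ φ hφφ hφφ
      hω := hω
      hφ := hφ
      h3 := three_ne hF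
      hE := by
        intro c
        obtain ⟨g, rfl⟩ := AdjoinRoot.mk_surjective c
        have h1 : AdjoinRoot.mk (poly F) g = AdjoinRoot.mk (poly F) (g %ₘ poly F) := by
          rw [AdjoinRoot.mk_eq_mk]
          exact ⟨g /ₘ poly F, by linear_combination - modByMonic_add_div g (poly F)⟩
        have h2 : (g %ₘ poly F).natDegree ≤ 1 := by
          have := natDegree_modByMonic_lt g monic (by
            intro h
            have := natDegree (F := F)
            rw [h] at this
            simp at this)
          rw [natDegree] at this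
          omega
        obtain ⟨a, b, h3⟩ := exists_eq_X_add_C_of_natDegree_le_one h2
        refine ⟨b, a, ?_⟩
        rw [h1, h3, map_add, map_mul, AdjoinRoot.mk_X, AdjoinRoot.mk_C, AdjoinRoot.mk_C,
          AdjoinRoot.algebraMap_eq]
        ring }

end

theorem result (F : Type) [Field F] [Finite F] (hF : Nat.card F % 3 = 2) :
    ∃ (L : Type) (_ : Field L) (_ : Algebra (RatFunc F) L) (_ : Algebra F[X] L)
      (_ : IsScalarTower F[X] (RatFunc F) L),
      FiniteDimensional (RatFunc F) L ∧ IsGalois (RatFunc F) L ∧
      (∃ g h : L ≃ₐ[RatFunc F] L, g * h ≠ h * g) ∧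
      ClassicalHopf F[X] (RatFunc F) L ∧ ComulFails F[X] (RatFunc F) L ∧
      ¬ NonclassicalHopf F[X] (RatFunc F) L := by
  have : Fact (Irreducible (poly F)) := ⟨irr hF⟩
  let _ := algR F (AdjoinRoot (poly F))
  let _ := algK F (AdjoinRoot (poly F))
  let D := (cst hF).toS3
  exact ⟨LL F (AdjoinRoot (poly F)), inferInstance, algK F (AdjoinRoot (poly F)),
    algR F (AdjoinRoot (poly F)), tower F (AdjoinRoot (poly F)), D.finDim, D.isGalois,
    ⟨D.s, D.τ, D.not_comm⟩, D.classical, ⟨D.bad, D.bad_mem, D.bad_comul⟩, D.not_hopfOrder⟩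

end Pool.Agent.Results.MP_eed25b_nt.HopfOrderFails
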